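import Pool.Agent.W619.PQ.Defs

/-! Definitions: logarithmic Kodaira dimension `-∞` and `A¹`-uniruledness, for function fields with a
set of boundary places; quotients of products of open curves. -/

set_option autoImplicit false
set_option linter.overlappingInstances false
set_option linter.unusedSectionVars false

universe u v

open FF IntermediateField Pool.Agent.W619.PQ

namespace Pool.Agent.W619.PL

section

variable {k : Type u} {K : Type v} [Field k] [Field K] [Algebra k K]

/-- `ω` has at most logarithmic poles along the divisor `v`: it takes logarithmic vector fields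
along `v` (those `D` with `D f / f` regular along `v` for all `f`) to functions regular
along `v`. -/
def LogRegularAt (v : Place k K) (n : ℕ) (ω : (Fin n → Derivation k K K) → K) : Prop :=
  ∀ D : Fin n → Derivation k K K, (∀ j, ∀ f, v.Reg (D j f / f)) → v.Reg (ω D)

variable (k K)

/-- Logarithmic Kodaira dimension `-∞`: there is no nonzero pluricanonical form which is regular
along the divisors outside the boundary `Bd` and logarithmic along the divisors in `Bd`. -/
def LogKodairaNeg (n : ℕ) (Bd : Place k K → Prop) : Prop :=
  ∀ m : ℕ, 1 ≤ m → ∀ ω : (Fin n → Derivation k K K) → K, IsPluriForm k K n m ω →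
    (∀ v : Place k K, IsDivisorial v n → ¬ Bd v → RegularAt v n ω) →
    (∀ v : Place k K, IsDivisorial v n → Bd v → LogRegularAt v n ω) → ∀ D, ω D = 0

/-- `A¹`-uniruledness of the variety `U` with function field `K`, where `Bd` is the set of places
whose centre is not on `U`: there is a dominant rational map from `Y × A¹` to `U`, with `Y` of
dimension `n - 1` and function field `M`, which is a morphism on the generic fibre `A¹` over
`M`: no closed point of this `A¹` (a place of `M(X)/M` at which `X` is regular) is sent
to the boundary. -/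
def IsA1Uniruled (n : ℕ) (Bd : Place k K → Prop) : Prop :=
  ∃ (M : Type v) (_ : Field M) (_ : Algebra k M) (φ : K →ₐ[k] RatFunc M),
    Algebra.EssFiniteType k M ∧ Algebra.trdeg k M + 1 = n ∧
    ∀ w : Place M (RatFunc M), w.Reg RatFunc.X → ∀ (v : Place k K) (e : ℕ), 0 < e →
      (∀ f : K, w.ord (φ f) = e * v.ord f) → ¬ Bd v

end

section

variable {k : Type u} {L : Type v} [Field k] [Field L] [Algebra k L]

/-- The place `w` of `F` lies over the place `q` of the subfield `Q` with ramification
index `e`. -/
def LiesOver {Q F : IntermediateField k L} (h : Q ≤ F) (w : Place k F) (q : Place k Q)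
    (e : ℕ) : Prop :=
  0 < e ∧ ∀ f : Q, w.ord (inclusion h f) = e * q.ord f

/-- The order of the automorphism `g` on the stable subfield `F`. -/
noncomputable def ordOn (F : IntermediateField k L) (g : L ≃ₐ[k] L) : ℕ :=
  sInf {d : ℕ | 0 < d ∧ ∀ z ∈ F, (g ^ d) z = z}

/-- `0` if `d = 1`, and `1 / min d N` otherwise. -/
noncomputable def wt (d N : ℕ) : ℚ := if d = 1 then 0 else 1 / ((min d N : ℕ) : ℚ)

/-- The numerical condition: `1 ≤ ∑ 1 / min (ord (g | F i)) (N i)` for each `g ≠ 1` in `G`, the sum
over the factors on which `g` is not trivial. -/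
def AgeCond {n : ℕ} (G : Subgroup (L ≃ₐ[k] L)) (F : Fin n → IntermediateField k L)
    (N : Fin n → ℕ) : Prop :=
  ∀ g ∈ G, g ≠ 1 → 1 ≤ ∑ i, wt (ordOn (F i) g) (N i)

open scoped Classical in
/-- `ν` is a signature on the finite set `S` of points of the curve with function field `Q`, which is
a quotient of the one with function field `F`: outside `B` the numbers `ν q` are at most `N` and
at most all ramification indices over `q`, and `2 ≤ ∑ (1 - 1 / ν q)`, where the points of `B`
count `1`. -/
def IsSignature {Q F : IntermediateField k L} (h : Q ≤ F) (B : Set (Place k Q)) (N : ℕ)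
    (S : Finset (Place k Q)) (ν : Place k Q → ℕ) : Prop :=
  (∀ q ∈ S, q ∉ B → 1 ≤ ν q ∧ ν q ≤ N ∧ ∀ w e, LiesOver h w q e → ν q ≤ e) ∧
    (2 : ℚ) ≤ ∑ q ∈ S, (if q ∈ B then 1 else 1 - 1 / (ν q : ℚ))

/-- The bound `N ≥ 1` is admissible for the curve `F` with quotient `Q` and boundary `B` on `Q`:
`N ≥ 6`, or `N ≥ 2` and `B` is not empty, or `B` has two points, or `Q` is irrational, or there
is a signature bounded by `N`. -/
def Admissible {Q F : IntermediateField k L} (h : Q ≤ F) (B : Set (Place k Q)) (N : ℕ) : Prop :=
  1 ≤ N ∧ (6 ≤ N ∨ (2 ≤ N ∧ B.Nonempty) ∨ B.Nontrivial ∨ (¬ ∃ t : Q, k⟮t⟯ = ⊤) ∨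
    ∃ S ν, IsSignature h B N S ν)

/-- The boundary places of the fixed field `K` of `G`: those whose restriction to `Q i = F i ∩ K`
is a positive multiple of a place in `B i`, for some `i`. -/
def QBd {n : ℕ} (F : Fin n → IntermediateField k L) (G : Subgroup (L ≃ₐ[k] L))
    (B : ∀ i, Set (Place k ↥(F i ⊓ fixedField G))) (v : Place k (fixedField G)) : Prop :=
  ∃ i, ∃ p ∈ B i, ∃ e : ℕ, LiesOver inf_le_right v p e

end

end Pool.Agent.W619.PL
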