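import Pool.Agent.W619.PL.LMain
import Pool.Agent.W619.PL.LDefs
import Pool.Agent.W619.PQ.Final

/-! Quotients of products of open curves of logarithmic Kodaira dimension `-∞` are
`A¹`-uniruled: abstract form. -/

set_option autoImplicit false
set_option linter.overlappingInstances false
set_option linter.unusedSectionVars false

universe u

open Polynomial FF IntermediateField

namespace Pool.Agent.W619.PL

open Pool.Agent.W603.LV Pool.Agent.W619.PQ

section

variable {k L : Type*} [Field k] [Field L] [Algebra k L]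

/-- If one factor is rational: the generic fibre. -/
theorem rational_factor' {n : ℕ} (F : Fin n → IntermediateField k L) [∀ i, IsFF k (F i)]
    (hsup : ⨆ i, F i = ⊤) (hn : Algebra.trdeg k L = n) (i0 : Fin n) (t : F i0)
    (ht : k⟮t⟯ = ⊤) : ∃ M : IntermediateField k L, Algebra.EssFiniteType k M ∧
      Algebra.trdeg k M + 1 = n ∧ Transcendental M (t : L) ∧ M⟮(t : L)⟯ = ⊤ ∧
      ∀ j, j ≠ i0 → F j ≤ M := by
  classical
  let ι := {j : Fin n // j ≠ i0}
  let M : IntermediateField k L := ⨆ j : ι, F j.1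
  have hle : ∀ j, j ≠ i0 → F j ≤ M := fun j hj => le_iSup (fun j : ι => F j.1) ⟨j, hj⟩
  have htop : M⟮(t : L)⟯ = ⊤ := by
    have h1 : (⊤ : IntermediateField k L) ≤ M⟮(t : L)⟯.restrictScalars k := by
      rw [← hsup]
      refine iSup_le fun j z hz => ?_
      rw [mem_restrictScalars]
      by_cases hj : j = i0
      · subst hj
        have h2 : (⟨z, hz⟩ : F j) ∈ k⟮t⟯ := by rw [ht]; trivial
        have h3 : k⟮t⟯ ≤ (M⟮(t : L)⟯.restrictScalars k).comap (F j).val := by
          rw [adjoin_simple_le_iff]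
          exact mem_adjoin_simple_self M _
        exact h3 h2
      · exact M⟮(t : L)⟯.algebraMap_mem ⟨z, hle j hj hz⟩
    rw [eq_top_iff]
    intro z _
    exact h1 (by trivial : z ∈ (⊤ : IntermediateField k L))
  have htt : Transcendental M (t : L) := by
    intro halg
    choose x hx using fun i => IsFF.exists_transcendental (k := k) (K := F i)
    let S : IntermediateField k L := adjoin k (Set.range fun j : ι => (x j.1 : L))
    let A : IntermediateField S L := algebraicClosure S L
    have hMA : ∀ z ∈ M, z ∈ A := by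
      intro z hz
      rw [mem_algebraicClosure_iff]
      exact alg_iSup (fun j : ι => F j.1) (fun j => x j.1) (fun j => hx j.1) hz
    let f : M →+* A := (algebraMap M L).codRestrict A fun z => hMA z z.2
    have hLA : ∀ z : L, IsAlgebraic S z := by
      intro z
      have h1 : Algebra.IsAlgebraic M M⟮(t : L)⟯ := isAlgebraic_adjoin_simple halg.isIntegral
      have h2 : IsAlgebraic M z := by
        have hz : z ∈ M⟮(t : L)⟯ := by rw [htop]; trivial
        exact (h1.isAlgebraic ⟨z, hz⟩).algebraMap (A := L)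
      have h3 : IsAlgebraic A z :=
        h2.ringHom_of_comp_eq f (RingHom.id L) f.injective (by ext z; rfl)
      exact h3.restrictScalars S
    have h4 := alg_adjoin hLA
    have h5 := Algebra.IsAlgebraic.trdeg_le_cardinalMk k (Set.range fun j : ι => (x j.1 : L))
    rw [hn] at h5
    have h6 : Cardinal.mk (Set.range fun j : ι => (x j.1 : L)) ≤ ((n - 1 : ℕ) : Cardinal) := by
      have h7 : Cardinal.lift.{0} (Cardinal.mk (Set.range fun j : ι => (x j.1 : L))) ≤
          Cardinal.lift (Cardinal.mk ι) := Cardinal.mk_range_le_lift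
      have h8 : Fintype.card ι = n - 1 := by
        rw [Fintype.card_subtype_compl, Fintype.card_fin, Fintype.card_subtype_eq]
      rw [Cardinal.mk_fintype ι, h8] at h7
      simpa using h7
    have h7 : n ≤ n - 1 := by exact_mod_cast h5.trans h6
    have h8 : 0 < n := i0.pos
    omega
  have hFF : IsFF M L := by
    refine IsFF.of_finite htt ?_
    rw [htop]
    exact Module.Finite.of_surjective (Algebra.linearMap (⊤ : IntermediateField M L) L)
      fun z => ⟨⟨z, trivial⟩, rfl⟩
  refine ⟨M, essFiniteType_iff.2 (fg_iSup fun j => essFiniteType_iff.1 (IsFF.ess)), ?_, htt, htop,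
    hle⟩
  rw [← hn, ← trdeg_add_eq k M (A := L), hFF.trdeg]

end

section

variable {k : Type*} {E : Type*} [Field k] [CharZero k] [IsAlgClosed k] [Field E] [Algebra k E]
  [IsFF k E]

/-- A generator with a pole at a given place. -/
theorem exists_generator_pole {t0 : E} (ht0 : k⟮t0⟯ = ⊤) (w : Place k E) :
    ∃ t : E, k⟮t⟯ = ⊤ ∧ w.ord t < 0 := by
  obtain ⟨P, hP, hP2⟩ := pole_unique ht0
  by_cases h : w.ord t0 < 0
  · exact ⟨t0, ht0, h⟩
  · push Not at h
    obtain ⟨D, hD, hDx⟩ := exists_ddx (transcendental_of_top ht0)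
    obtain ⟨-, a, ha, -⟩ := vo_finite_place ht0 hD hDx w h
    refine ⟨(t0 - algebraMap k E a)⁻¹, ?_, ?_⟩
    · rw [adjoin_inv, top_sub ht0]
    · rw [w.ord_inv, ha]; norm_num

end

section

variable {k : Type*} {L : Type u} [Field k] [CharZero k] [IsAlgClosed k] [Field L] [Algebra k L]

open scoped Classical in
theorem log_abstract (n : ℕ) (hn : Algebra.trdeg k L = n)
    (F : Fin n → IntermediateField k L) [hF : ∀ i, IsFF k (F i)] (hsup : ⨆ i, F i = ⊤)
    (G : Subgroup (L ≃ₐ[k] L)) [Finite G] {E0 : Fin n → Type*} [∀ i, Field (E0 i)]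
    [∀ i, Algebra k (E0 i)] [∀ i, Algebra (E0 i) (F i)] [∀ i, Algebra (E0 i) (fixedField G)]
    [∀ i, Algebra (E0 i) L] [∀ i, IsScalarTower k (E0 i) (F i)] [∀ i, IsScalarTower k (E0 i) L]
    [∀ i, IsScalarTower k (E0 i) (fixedField G)] [∀ i, IsScalarTower (E0 i) (F i) L]
    [∀ i, IsScalarTower (E0 i) (fixedField G) L] [∀ i, IsFF k (E0 i)]
    [∀ i, FiniteDimensional (E0 i) (F i)] (ρ : ∀ i, G →* (F i ≃ₐ[k] F i))
    (hcomp : ∀ i (g : G) z, ((ρ i g z : F i) : L) = (g : L ≃ₐ[k] L) (z : L))
    (hfix : ∀ i g (z : E0 i), ρ i g (algebraMap (E0 i) (F i) z) = algebraMap (E0 i) (F i) z)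
    (hinv : ∀ i (z : F i), (∀ g, ρ i g z = z) → ∃ z0, algebraMap (E0 i) (F i) z0 = z)
    (B : ∀ i, Place k (E0 i) → Prop) (N : Fin n → ℕ)
    (hN : ∀ i, 6 ≤ N i ∨ (2 ≤ N i ∧ ∃ q, B i q) ∨ (1 ≤ N i ∧ ∃ q q', q ≠ q' ∧ B i q ∧ B i q') ∨
      (1 ≤ N i ∧ ¬ ∃ t : E0 i, k⟮t⟯ = ⊤) ∨
      ∃ (S : Finset (Place k (E0 i))) (ν : Place k (E0 i) → ℕ),
        1 ≤ N i ∧ (∀ q ∈ S, ¬ B i q → 1 ≤ ν q ∧ ν q ≤ N i ∧
          ∀ (w : Place k (F i)) (e : ℕ), Over w q e → ν q ≤ e) ∧
        (2 : ℚ) ≤ ∑ q ∈ S, (if B i q then 1 else 1 - 1 / (ν q : ℚ)))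
    (hage : ∀ g : G, g ≠ 1 → (1 : ℚ) ≤ ∑ i with ρ i g ≠ 1,
      1 / ((min (orderOf (ρ i g)) (N i) : ℕ) : ℚ))
    (hκ : LogKodairaNeg k (fixedField G) n (Bdry B)) :
    IsA1Uniruled k (fixedField G) n (Bdry B) := by
  by_cases hlog : ∀ i, (¬ ∃ t : F i, k⟮t⟯ = ⊤) ∨
      ∃ (w1 w2 : Place k (F i)) (q1 q2 : Place k (E0 i)) (e1 e2 : ℕ), w1 ≠ w2 ∧
        Over w1 q1 e1 ∧ Over w2 q2 e2 ∧ B i q1 ∧ B i q2
  · exfalso
    have hgood : ∀ i, ∃ (m : ℕ) (D0 : Derivation k (E0 i) (E0 i))
        (c : E0 i), 1 ≤ m ∧ D0 ≠ 0 ∧ c ≠ 0 ∧ Good (F i) (B i) (N i) m D0 c := by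
      intro i
      have hl : HasLog (F i) (B i) := by
        rcases hlog i with h | ⟨w1, w2, q1, q2, e1, e2, h0, h1, h2, h3, h4⟩
        · exact hasLog_of_nonrational _ h
        · exact hasLog_of_two _ h0 h1 h2 h3 h4
      refine exists_good (ρ i) (hfix i) (hinv i) (B i) hl ?_ (N i) (hN i)
      intro hemp
      rcases hlog i with h | ⟨w1, w2, q1, q2, e1, e2, h0, h1, h2, h3, h4⟩
      · exact h
      · exact absurd h3 (hemp q1)
    choose m0 D0 c0 hm0 hD0 hc0 hg0 using hgood
    -- a common weight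
    let m : ℕ := ∏ i, m0 i
    let a : Fin n → ℕ := fun i => ∏ j ∈ Finset.univ.erase i, m0 j
    have ham : ∀ i, a i * m0 i = m := fun i => Finset.prod_erase_mul _ _ (Finset.mem_univ i)
    have hm1 : 1 ≤ m := Finset.one_le_prod' fun i _ => hm0 i
    let c : ∀ i, E0 i := fun i => c0 i ^ a i
    have hc : ∀ i, c i ≠ 0 := fun i => pow_ne_zero _ (hc0 i)
    have hg : ∀ i, Good (F i) (B i) (N i) m (D0 i) (c i) := fun i => by
      have := (hg0 i).pow (a i)
      rwa [ham i] at this
    choose x hx using fun i => IsFF.exists_transcendental (k := k) (K := E0 i)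
    have hb : IsTranscendenceBasis k fun i => algebraMap (E0 i) (fixedField G) (x i) := by
      apply basis_down (L := L) hn
      have h1 := basis_of_iSup F hsup hn (fun i => algebraMap (E0 i) (F i) (x i)) fun i =>
        transcendental_map (E := F i) (hx i)
      convert h1 using 2 with i
      change algebraMap (fixedField G) L (algebraMap (E0 i) (fixedField G) (x i)) =
        algebraMap (F i) L (algebraMap (E0 i) (F i) (x i))
      rw [← IsScalarTower.algebraMap_apply, ← IsScalarTower.algebraMap_apply]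
    obtain ⟨D, hD⟩ := extForm_ne m D0 x c hc (fun i => der_ne_zero (hD0 i) (hx i)) hb
    refine hD (hκ m hm1 _ (extForm_pluri m D0 x c) ?_ ?_ D)
    · intro v _ hv D hD
      exact regular_of_good (G := G) (E0 := E0) (E := fun i => F i)
        ρ hcomp B N hage hD0 hc hg x hx v hv D hD
    · intro v _ _ D hD
      exact logregular_of_good (G := G) (E0 := E0) (E := fun i => F i)
        B N hD0 hc hg x hx v D hD
  · push Not at hlog
    obtain ⟨i0, ⟨t0, ht0⟩, huniq⟩ := hlog
    -- a generator with poles at the boundary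
    obtain ⟨t, ht, htB⟩ : ∃ t : F i0, k⟮t⟯ = ⊤ ∧ ∀ (w : Place k (F i0))
        (q : Place k (E0 i0)) (e : ℕ), Over w q e → B i0 q → w.ord t < 0 := by
      by_cases hex : ∃ (w : Place k (F i0)) (q : Place k (E0 i0)) (e : ℕ),
          Over w q e ∧ B i0 q
      · obtain ⟨w, q, e, h1, h2⟩ := hex
        obtain ⟨t, ht, htw⟩ := exists_generator_pole ht0 w
        refine ⟨t, ht, fun w' q' e' h1' h2' => ?_⟩
        by_cases hww : w = w'
        · rw [← hww]; exact htw
        · exact absurd h2' (huniq w w' q q' e e' hww h1 h1' h2)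
      · push Not at hex
        exact ⟨t0, ht0, fun w q e h1 h2 => absurd h2 (hex w q e h1)⟩
    obtain ⟨M, h1, h2, h3, h4, h5⟩ := rational_factor' F hsup hn i0 t ht
    let e1 : RatFunc M ≃ₐ[M] M⟮(t : L)⟯ := RatFunc.algEquivOfTranscendental (t : L) h3
    let e2 : M⟮(t : L)⟯ ≃ₐ[M] L := (equivOfEq h4).trans topEquiv
    let e3 : RatFunc M ≃ₐ[M] L := e1.trans e2
    have he3 : e3 RatFunc.X = (t : L) := by
      change e2 (e1 RatFunc.X) = (t : L)
      have : e1 RatFunc.X = AdjoinSimple.gen M (t : L) := by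
        rw [← RatFunc.algebraMap_X]
        change RatFunc.algEquivOfTranscendental (t : L) h3 (algebraMap M[X] (RatFunc M) X) = _
        rw [RatFunc.algEquivOfTranscendental_algebraMap]
        apply Subtype.ext
        simp
      rw [this]
      rfl
    refine ⟨M, inferInstance, inferInstance,
      ((e3.symm.restrictScalars k : L ≃ₐ[k] RatFunc M) : L →ₐ[k] RatFunc M).comp
        (fixedField G).val, h1, h2, ?_⟩
    rintro w hw v e he hwv ⟨i, p, e', hvp, hpB⟩
    -- the place of `L`
    let wL : Place k L :=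
      { ord := fun z => w.ord (e3.symm z)
        ord_zero := by rw [map_zero, w.ord_zero]
        ord_mul := fun {f g} hf hg => by
          rw [map_mul, w.ord_mul (by simpa using hf) (by simpa using hg)]
        ord_add := fun {f g} hf hg hfg => by
          rw [map_add]
          exact w.ord_add (by simpa using hf) (by simpa using hg)
            (by rw [← map_add]; exact (map_ne_zero_iff _ e3.symm.injective).2 hfg)
        ord_const := fun {c} hc => by
          have : e3.symm (algebraMap k L c) = algebraMap M (RatFunc M) (algebraMap k M c) := by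
            rw [IsScalarTower.algebraMap_apply k M L, AlgEquiv.commutes]
          rw [this]
          exact w.ord_const (by simpa using hc)
        surj := by
          obtain ⟨s, hs0, hs⟩ := w.surj
          exact ⟨e3 s, by simpa using hs0, by rw [AlgEquiv.symm_apply_apply]; exact hs⟩ }
    have hwLK : ∀ f : fixedField G, wL.ord (f : L) = e * v.ord f := fun f => hwv f
    have hover : Over wL p (e * e') := by
      refine ⟨Nat.mul_pos he hvp.1, fun f => ?_⟩
      rw [IsScalarTower.algebraMap_apply (E0 i) (fixedField G) L]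
      have h6 := hwLK (algebraMap (E0 i) (fixedField G) f)
      rw [hvp.2] at h6
      push_cast
      rw [mul_assoc]
      exact h6
    obtain ⟨s, hs0, hs⟩ := p.surj
    have hs1 : wL.ord (algebraMap (F i) L (algebraMap (E0 i) (F i) s)) ≠ 0 := by
      rw [← IsScalarTower.algebraMap_apply, hover.2, hs, mul_one]
      have : 0 < e * e' := hover.1
      exact_mod_cast this.ne'
    by_cases hi : i = i0
    · subst hi
      obtain ⟨b, q, hq⟩ := exists_over (K := F i) wL ⟨algebraMap (E0 i) (F i) s, hs1⟩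
      have hq2 : q.ord (algebraMap (E0 i) (F i) s) ≠ 0 := by
        intro h
        apply hs1
        have := hq.2 (algebraMap (E0 i) (F i) s)
        rw [h, mul_zero] at this
        exact this
      obtain ⟨r, p', hp'⟩ := exists_over (K := E0 i) q ⟨s, hq2⟩
      obtain ⟨rfl, -⟩ := over_unique' hover (over_trans hq hp')
      have h7 := htB q p r hp' hpB
      have h8 := hq.2 t
      have h9 : wL.ord (t : L) < 0 := by
        change wL.ord (algebraMap (F i) L t) < 0
        rw [h8]
        have : (0 : ℤ) < b := by exact_mod_cast hq.1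
        exact mul_neg_of_pos_of_neg this h7
      have h10 : wL.ord (t : L) = w.ord RatFunc.X := by
        change w.ord (e3.symm (t : L)) = _
        rw [← he3, AlgEquiv.symm_apply_apply]
      rcases hw with h | h
      · exact RatFunc.X_ne_zero h
      · omega
    · apply hs1
      set s' : F i := algebraMap (E0 i) (F i) s with hs'
      have hs'0 : s' ≠ 0 := by rw [hs']; simpa using hs0
      have hsM : (s' : L) ∈ M := h5 i hi s'.2
      change w.ord (e3.symm (s' : L)) = 0
      have : e3.symm (s' : L) = algebraMap M (RatFunc M) ⟨_, hsM⟩ := by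
        have := e3.symm.commutes (⟨_, hsM⟩ : M)
        exact this
      rw [this]
      exact w.ord_const (fun h => hs'0 (by
        have h' := congrArg Subtype.val h
        exact Subtype.ext h'))

end

end Pool.Agent.W619.PL
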