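import Pool.Agent.W619.PQ.Curve
import Pool.Agent.W619.PQ.Local

/-! Logarithmic pluricanonical forms on curves. -/

set_option autoImplicit false
set_option linter.overlappingInstances false
set_option linter.unusedSectionVars false

open Polynomial FF IntermediateField

namespace Pool.Agent.W619.PL

open Pool.Agent.W603.LV Pool.Agent.W619.PQ

section

variable {k E : Type*} [Field k] [CharZero k] [IsAlgClosed k] [Field E] [Algebra k E] [IsFF k E]

/-- Pluricanonical forms on the projective line with prescribed poles. -/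
theorem exists_form_gen {x : E} (hx : k⟮x⟯ = ⊤) (S : Finset (Place k E)) [DecidableEq (Place k E)]
    (r : Place k E → ℤ) (m δ : ℕ) (hsum : 2 * (m : ℤ) + δ ≤ ∑ q ∈ S, r q)
    {D : Derivation k E E} (hD : D ≠ 0) (hDx : D x = 1) :
    ∃ c : E, c ≠ 0 ∧ ∀ j : ℕ, j ≤ δ → ∀ q : Place k E,
      (m : ℤ) - (if q ∈ S then r q else 0) ≤ q.ord (c * x ^ j) + m * (1 - vo q D) := by
  classical
  have ht := transcendental_of_top hx
  have hx0 : x ≠ 0 := fun h => ht (by rw [h]; exact isAlgebraic_zero)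
  obtain ⟨P, hP, hP2⟩ := pole_unique hx
  have hfinpl : ∀ Q : Place k E, Q ≠ P → 0 ≤ Q.ord x := by
    intro Q hQ
    by_contra hcon
    exact hQ (hP2 Q (by omega))
  -- coordinates of the finite places
  have ha : ∀ Q : Place k E, ∃ a : k, Q ≠ P → Q.ord (x - algebraMap k E a) = 1 ∧
      ∀ Q' : Place k E, 0 < Q'.ord (x - algebraMap k E a) → Q' = Q := by
    intro Q
    by_cases hQ : Q = P
    · exact ⟨0, fun h => absurd hQ h⟩
    · obtain ⟨-, a, ha⟩ := vo_finite_place hx hD hDx Q (hfinpl Q hQ)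
      exact ⟨a, fun _ => ha⟩
  choose a ha using ha
  set c : E := ∏ q ∈ S.erase P, (x - algebraMap k E (a q)) ^ (-(r q)) with hc
  have hne : ∀ q, (x - algebraMap k E (a q)) ≠ 0 := fun q => sub_const_ne ht _
  have hc0 : c ≠ 0 := Finset.prod_ne_zero_iff.2 fun q _ => zpow_ne_zero _ (hne q)
  have hordc : ∀ Q : Place k E, Q.ord c =
      ∑ q ∈ S.erase P, -(r q) * Q.ord (x - algebraMap k E (a q)) := by
    intro Q
    rw [hc, ord_prod _ _ _ fun q _ => zpow_ne_zero _ (hne q)]
    exact Finset.sum_congr rfl fun q _ => Q.ord_zpow _ _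
  refine ⟨c, hc0, fun j hj Q => ?_⟩
  rw [Q.ord_mul hc0 (pow_ne_zero _ hx0), Q.ord_pow]
  by_cases hQP : Q = P
  · subst hQP
    have h1 : ∀ b : k, Q.ord (x - algebraMap k E b) = -1 := by
      intro b
      by_cases hb : b = 0
      · rw [hb, map_zero, sub_zero, hP]
      · have h2 : Q.ord (-(algebraMap k E b)) = 0 := by rw [Q.ord_neg, Q.ord_const hb]
        have h3 := Q.ord_add_eq (f := x) (g := -(algebraMap k E b)) hx0
          (by simpa using hb) (by omega)
        rw [← sub_eq_add_neg, hP] at h3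
        exact h3.2
    have h2 : Q.ord c = ∑ q ∈ S.erase Q, r q := by
      rw [hordc]
      refine Finset.sum_congr rfl fun q _ => ?_
      rw [h1]; ring
    rw [vo_infinite_place hD hDx Q hP, h2, hP]
    have hj' : (j : ℤ) ≤ δ := by exact_mod_cast hj
    by_cases hQS : Q ∈ S
    · rw [if_pos hQS]
      have h3 := Finset.add_sum_erase S r hQS
      linarith
    · rw [if_neg hQS, Finset.erase_eq_of_notMem hQS]
      linarith
  · have h1 := (vo_finite_place hx hD hDx Q (hfinpl Q hQP)).1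
    rw [h1]
    have h2 : ∀ q ∈ S.erase P, q ≠ Q → Q.ord (x - algebraMap k E (a q)) = 0 := by
      intro q hq hqQ
      have h3 : 0 ≤ Q.ord (x - algebraMap k E (a q)) := by
        have h4 : Ge Q 0 (x - algebraMap k E (a q)) :=
          Ge.sub (Or.inr (hfinpl Q hQP)) (Ge.const _)
        exact h4.resolve_left (hne q)
      by_contra h5
      have h6 := (ha q (Finset.ne_of_mem_erase hq)).2 Q (by omega)
      exact hqQ h6.symm
    have h7 : (0 : ℤ) ≤ j * Q.ord x := mul_nonneg (by positivity) (hfinpl Q hQP)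
    by_cases hQS : Q ∈ S
    · rw [if_pos hQS]
      have h3 : Q.ord c = -(r Q) := by
        rw [hordc, Finset.sum_eq_single_of_mem Q (Finset.mem_erase.2 ⟨hQP, hQS⟩)]
        · rw [(ha Q hQP).1]; ring
        · intro q hq hqQ
          rw [h2 q hq hqQ, mul_zero]
      rw [h3]
      linarith
    · rw [if_neg hQS]
      have h3 : Q.ord c = 0 := by
        rw [hordc]
        apply Finset.sum_eq_zero
        intro q hq
        rw [h2 q hq, mul_zero]
        rintro rfl
        exact hQS (Finset.mem_of_mem_erase hq)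
      rw [h3]
      linarith

end

section

variable {k : Type*} [Field k] [CharZero k] [IsAlgClosed k]
  {E0 E : Type*} [Field E0] [Field E] [Algebra k E0] [Algebra k E] [Algebra E0 E]
  [IsScalarTower k E0 E] [IsFF k E0] [IsFF k E]

variable (E) in
/-- A logarithmic form on the curve, with poles over the boundary `B0`. -/
def HasLog (B0 : Place k E0 → Prop) : Prop :=
  ∃ (D : Derivation k E E) (f : E), D ≠ 0 ∧ f ≠ 0 ∧
    ∀ (q : Place k E0) (w : Place k E) (e : ℕ), Over w q e →
      (¬ B0 q → vo w D ≤ w.ord f) ∧ (B0 q → vo w D - 1 ≤ w.ord f)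

theorem hasLog_of_nonrational (B0 : Place k E0 → Prop) (hrat : ¬ ∃ t : E, k⟮t⟯ = ⊤) :
    HasLog E B0 := by
  obtain ⟨f, hf0, hf⟩ := exists_regular hrat (der_ne (k := k) (K := E))
  exact ⟨der k E, f, der_ne, hf0, fun q w e _ => ⟨fun _ => hf w, fun _ => by linarith [hf w]⟩⟩

theorem hasLog_of_two (B0 : Place k E0 → Prop) {w1 w2 : Place k E} (hw : w1 ≠ w2)
    {q1 q2 : Place k E0} {e1 e2 : ℕ} (h1 : Over w1 q1 e1) (h2 : Over w2 q2 e2) (hq1 : B0 q1)
    (hq2 : B0 q2) : HasLog E B0 := by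
  classical
  by_cases hrat : ∃ t : E, k⟮t⟯ = ⊤
  swap
  · exact hasLog_of_nonrational B0 hrat
  obtain ⟨x, hx⟩ := hrat
  obtain ⟨D, hD, hDx⟩ := exists_ddx (transcendental_of_top hx)
  obtain ⟨c, hc0, hc⟩ := exists_form_gen hx {w1, w2} (fun _ => 1) 1 0
    (by rw [Finset.sum_pair hw]; norm_num) hD hDx
  refine ⟨D, c, hD, hc0, fun q w e hwq => ?_⟩
  have h3 := hc 0 le_rfl w
  rw [pow_zero, mul_one] at h3
  push_cast at h3
  constructor
  · intro hq
    have hwS : w ∉ ({w1, w2} : Finset (Place k E)) := by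
      intro hmem
      rw [Finset.mem_insert, Finset.mem_singleton] at hmem
      rcases hmem with rfl | rfl
      · exact hq ((over_unique' hwq h1).1 ▸ hq1)
      · exact hq ((over_unique' hwq h2).1 ▸ hq2)
    rw [if_neg hwS] at h3
    linarith
  · intro _
    split_ifs at h3 <;> linarith

/-- The norm of a logarithmic form. -/
theorem exists_norm_log {H : Type*} [Group H] [Finite H] (ρ : H →* (E ≃ₐ[k] E))
    (hfix : ∀ (h : H) (z : E0), ρ h (algebraMap E0 E z) = algebraMap E0 E z)
    (hinv : ∀ z : E, (∀ h, ρ h z = z) → ∃ z0, algebraMap E0 E z0 = z)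
    (B0 : Place k E0 → Prop) (hlog : HasLog E B0) {D0 : Derivation k E0 E0} (hD0 : D0 ≠ 0) :
    ∃ c : E0, c ≠ 0 ∧ ∀ (q : Place k E0) (w : Place k E) (e : ℕ), Over w q e →
      (¬ B0 q → (Nat.card H : ℤ) ≤ e * (q.ord c + Nat.card H * (1 - vo q D0))) ∧
      (B0 q → 0 ≤ q.ord c + Nat.card H * (1 - vo q D0)) := by
  classical
  obtain ⟨D, hD, hext⟩ := exists_ext (E := E) D0 hD0
  obtain ⟨t, ht⟩ := IsFF.exists_transcendental (k := k) (K := E0)
  have htE := transcendental_map (E := E) ht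
  have hcomm : ∀ (h : H) (z : E), ρ h (D z) = D (ρ h z) := by
    intro h z
    have h1 : conjDer (ρ h) D (algebraMap E0 E t) = D (algebraMap E0 E t) := by
      rw [conjDer_apply]
      have h2 : (ρ h).symm (algebraMap E0 E t) = algebraMap E0 E t := by
        rw [AlgEquiv.symm_apply_eq, hfix]
      rw [h2, hext, hfix]
    have h2 := der_ext htE h1 (ρ h z)
    rw [conjDer_apply, AlgEquiv.symm_apply_apply] at h2
    exact h2
  obtain ⟨D1, f1, hD1, hf10, hf1⟩ := hlog
  obtain ⟨g, hg⟩ := der_smul (D' := D) hD1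
  have hg0 : g ≠ 0 := by
    rintro rfl
    rw [zero_smul] at hg
    exact hD hg
  set f := g * f1 with hfdef
  have hf0 : f ≠ 0 := mul_ne_zero hg0 hf10
  have hf : ∀ (q : Place k E0) (w : Place k E) (e : ℕ), Over w q e →
      (¬ B0 q → vo w D ≤ w.ord f) ∧ (B0 q → vo w D - 1 ≤ w.ord f) := by
    intro q w e hwq
    rw [hfdef, w.ord_mul hg0 hf10, hg, vo_smul w hD1 hg0]
    exact ⟨fun h => by linarith [(hf1 q w e hwq).1 h], fun h => by linarith [(hf1 q w e hwq).2 h]⟩
  have hFin : Fintype H := Fintype.ofFinite H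
  obtain ⟨c, hc⟩ := hinv (∏ h : H, ρ h f) (by
    intro g
    rw [map_prod]
    refine Fintype.prod_equiv (Equiv.mulLeft g) _ _ fun h => ?_
    simp only [Equiv.coe_mulLeft, map_mul]
    rfl)
  have hN0 : ∏ h : H, ρ h f ≠ 0 := Finset.prod_ne_zero_iff.2 fun h _ => by simpa using hf0
  have hc0 : c ≠ 0 := by
    rintro rfl
    rw [map_zero] at hc
    exact hN0 hc.symm
  refine ⟨c, hc0, fun q w e hwe => ?_⟩
  have hconj : ∀ h : H, Over (w.comp (ρ h)) q e := by
    intro h
    refine ⟨hwe.1, fun z => ?_⟩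
    rw [Place.comp_ord, hfix, hwe.2]
  -- lower bound of the order of the norm
  have key : ∀ N : ℤ, (∀ h : H, vo w D - N ≤ (w.comp (ρ h)).ord f) →
      (Nat.card H : ℤ) * (vo w D - N) ≤ w.ord (∏ h : H, ρ h f) := by
    intro N hN
    rw [ord_prod _ _ _ fun h _ => by simpa using hf0]
    have h2 : ∀ h ∈ (Finset.univ : Finset H), vo w D - N ≤ w.ord (ρ h f) := by
      intro h _
      have h3 := hN h
      rw [Place.comp_ord] at h3
      exact h3
    have h3 := Finset.card_nsmul_le_sum _ _ _ h2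
    rw [Finset.card_univ, ← Nat.card_eq_fintype_card, nsmul_eq_mul] at h3
    exact_mod_cast h3
  have he : (0 : ℤ) < e := by exact_mod_cast hwe.1
  constructor
  · intro hq
    have h1 := key 0 (fun h => by
      rw [sub_zero, ← vo_comp w (ρ h) hD (hcomm h)]
      exact (hf q _ e (hconj h)).1 hq)
    rw [← hc, hwe.2, vo_over hwe hD0 hD hext] at h1
    nlinarith [h1]
  · intro hq
    have h1 := key 1 (fun h => by
      have := (hf q _ e (hconj h)).2 hq
      rwa [vo_comp w (ρ h) hD (hcomm h)] at this)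
    rw [← hc, hwe.2, vo_over hwe hD0 hD hext] at h1
    have h2 : 0 ≤ (e : ℤ) * (q.ord c + Nat.card H * (1 - vo q D0)) := by nlinarith [h1]
    exact nonneg_of_mul_nonneg_right h2 he |>.trans le_rfl

end

end Pool.Agent.W619.PL
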