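import Pool.Agent.W619.PL.Form

/-! Good logarithmic pluricanonical forms on the quotient of a curve. -/

set_option autoImplicit false
set_option linter.overlappingInstances false
set_option linter.unusedSectionVars false

open Polynomial FF IntermediateField

namespace Pool.Agent.W619.PL

open Pool.Agent.W603.LV Pool.Agent.W619.PQ

section

variable {k : Type*} [Field k] [CharZero k] [IsAlgClosed k]
  {E0 E : Type*} [Field E0] [Field E] [Algebra k E0] [Algebra k E] [Algebra E0 E]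
  [IsScalarTower k E0 E] [IsFF k E0] [IsFF k E]

variable (E) in
/-- The `m`-form `c` (relative to `D0`) on the quotient curve has logarithmic order at least
`m / ν`, with `ν` at most `N` and at most the ramification indices, and is logarithmic along
the boundary. -/
def Good (B0 : Place k E0 → Prop) (N m : ℕ) (D0 : Derivation k E0 E0) (c : E0) : Prop :=
  ∀ q : Place k E0, (B0 q → 0 ≤ q.ord c + m * (1 - vo q D0)) ∧
    (¬ B0 q → ∃ ν : ℕ, 1 ≤ ν ∧ ν ≤ N ∧ (∀ (w : Place k E) (e : ℕ), Over w q e → ν ≤ e) ∧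
      (m : ℤ) ≤ ν * (q.ord c + m * (1 - vo q D0)))

theorem Good.nonneg {B0 : Place k E0 → Prop} {N m : ℕ} {D0 : Derivation k E0 E0} {c : E0}
    (h : Good E B0 N m D0 c) (q : Place k E0) : 0 ≤ q.ord c + m * (1 - vo q D0) := by
  by_cases hq : B0 q
  · exact (h q).1 hq
  · obtain ⟨ν, h1, -, -, h2⟩ := (h q).2 hq
    have h3 : (0 : ℤ) < ν := by exact_mod_cast h1
    have h4 : (0 : ℤ) ≤ ν * (q.ord c + m * (1 - vo q D0)) := le_trans (by positivity) h2
    exact nonneg_of_mul_nonneg_right h4 h3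

theorem Good.mul {B0 : Place k E0 → Prop} {N m m' : ℕ} {D0 : Derivation k E0 E0} {c c' : E0}
    (hc : c ≠ 0) (hc' : c' ≠ 0) (h : Good E B0 N m D0 c) (h' : Good E B0 N m' D0 c') :
    Good E B0 N (m + m') D0 (c * c') := by
  intro q
  rw [q.ord_mul hc hc']
  constructor
  · intro hq
    have h1 := (h q).1 hq
    have h2 := (h' q).1 hq
    push_cast
    linarith
  · intro hq
    have h3 := h.nonneg q
    have h4 := h'.nonneg q
    obtain ⟨ν, a1, a2, a3, a4⟩ := (h q).2 hq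
    obtain ⟨ν', b1, b2, b3, b4⟩ := (h' q).2 hq
    refine ⟨max ν ν', a1.trans (le_max_left _ _), max_le a2 b2,
      fun w e hw => max_le (a3 w e hw) (b3 w e hw), ?_⟩
    have h5 : (ν : ℤ) ≤ max ν ν' := by exact_mod_cast le_max_left _ _
    have h6 : (ν' : ℤ) ≤ max ν ν' := by exact_mod_cast le_max_right _ _
    have h7 := mul_le_mul_of_nonneg_right h5 h3
    have h8 := mul_le_mul_of_nonneg_right h6 h4
    push_cast at h7 h8 ⊢
    linarith

theorem Good.pow {B0 : Place k E0 → Prop} {N m : ℕ} {D0 : Derivation k E0 E0} {c : E0}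
    (h : Good E B0 N m D0 c) (a : ℕ) : Good E B0 N (a * m) D0 (c ^ a) := by
  intro q
  rw [q.ord_pow]
  obtain ⟨h1, h2⟩ := h q
  constructor
  · intro hq
    have h3 := h1 hq
    have h4 : (0 : ℤ) ≤ a := by positivity
    have h5 := mul_nonneg h4 h3
    push_cast
    linarith
  · intro hq
    obtain ⟨ν, a1, a2, a3, a4⟩ := h2 hq
    refine ⟨ν, a1, a2, a3, ?_⟩
    have h4 : (0 : ℤ) ≤ a := by positivity
    have h5 := mul_le_mul_of_nonneg_left a4 h4
    push_cast
    calc (a : ℤ) * m ≤ a * (ν * (q.ord c + m * (1 - vo q D0))) := h5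
      _ = _ := by ring

theorem one_le_ram (q : Place k E0) : ∀ (w : Place k E) (e : ℕ), Over w q e → 1 ≤ e :=
  fun _ _ h => h.1

/-- A regular form on an irrational quotient curve. -/
theorem good_of_nonrational (B0 : Place k E0 → Prop) {N : ℕ} (hN : 1 ≤ N)
    (h : ¬ ∃ t : E0, k⟮t⟯ = ⊤) : ∃ c : E0, c ≠ 0 ∧ Good E B0 N 1 (der k E0) c := by
  obtain ⟨f, hf0, hf⟩ := exists_regular h (der_ne (k := k) (K := E0))
  refine ⟨f, hf0, fun q => ⟨fun _ => ?_, fun _ => ⟨1, le_rfl, hN, one_le_ram q, ?_⟩⟩⟩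
  · have := hf q
    push_cast
    linarith
  · have := hf q
    push_cast
    linarith

open scoped Classical in
/-- A form on the projective line from a signature. -/
theorem good_of_signature (B0 : Place k E0 → Prop) {N : ℕ} (hN : 1 ≤ N) {x : E0} (hx : k⟮x⟯ = ⊤)
    (S : Finset (Place k E0)) (ν : Place k E0 → ℕ)
    (hν : ∀ q ∈ S, ¬ B0 q → 1 ≤ ν q ∧ ν q ≤ N ∧
      ∀ (w : Place k E) (e : ℕ), Over w q e → ν q ≤ e)
    (hsum : (2 : ℚ) ≤ ∑ q ∈ S, (if B0 q then 1 else 1 - 1 / (ν q : ℚ))) :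
    ∃ (m : ℕ) (D0 : Derivation k E0 E0) (c : E0), 1 ≤ m ∧ D0 ≠ 0 ∧ c ≠ 0 ∧ Good E B0 N m D0 c := by
  obtain ⟨D, hD, hDx⟩ := exists_ddx (transcendental_of_top hx)
  set m : ℕ := ∏ q ∈ S.filter (fun q => ¬ B0 q), ν q with hm
  have hm1 : 1 ≤ m := Nat.one_le_iff_ne_zero.2 (Finset.prod_ne_zero_iff.2 fun q hq => by
    have h1 := Finset.mem_filter.1 hq
    have := hν q h1.1 h1.2
    omega)
  have hdvd : ∀ q ∈ S, ¬ B0 q → ν q ∣ m := fun q hq hq2 =>
    Finset.dvd_prod_of_mem _ (Finset.mem_filter.2 ⟨hq, hq2⟩)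
  let r : Place k E0 → ℤ := fun q => if B0 q then m else m - (m / ν q : ℕ)
  have hr : ∀ q ∈ S, ¬ B0 q → (ν q : ℤ) * (m - r q) = m := by
    intro q hq hq2
    have h1 : ν q * (m / ν q) = m := Nat.mul_div_cancel' (hdvd q hq hq2)
    simp only [r, if_neg hq2]
    have h2 : (ν q : ℤ) * ((m / ν q : ℕ) : ℤ) = m := by exact_mod_cast h1
    linarith
  have hrQ : ∀ q ∈ S, (r q : ℚ) = m * (if B0 q then 1 else 1 - 1 / (ν q : ℚ)) := by
    intro q hq
    by_cases hq2 : B0 q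
    · simp only [r, if_pos hq2]
      push_cast; ring
    · rw [if_neg hq2]
      have h1 := hr q hq hq2
      have h2 : (ν q : ℚ) ≠ 0 := by
        have := (hν q hq hq2).1
        exact_mod_cast (by omega : ν q ≠ 0)
      have h3 : (ν q : ℚ) * ((m : ℚ) - r q) = m := by exact_mod_cast h1
      field_simp
      linarith
  have hsumr : 2 * (m : ℤ) + (0 : ℕ) ≤ ∑ q ∈ S, r q := by
    have h1 : ((∑ q ∈ S, r q : ℤ) : ℚ) =
        m * ∑ q ∈ S, (if B0 q then 1 else 1 - 1 / (ν q : ℚ)) := by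
      rw [Int.cast_sum, Finset.mul_sum]
      exact Finset.sum_congr rfl hrQ
    have h2 : (2 : ℚ) * m ≤ ((∑ q ∈ S, r q : ℤ) : ℚ) := by
      rw [h1]
      have : (0 : ℚ) ≤ m := by positivity
      nlinarith
    rw [Nat.cast_zero, add_zero]
    exact_mod_cast h2
  obtain ⟨c, hc0, hc⟩ := exists_form_gen hx S r m 0 hsumr hD hDx
  refine ⟨m, D, c, hm1, hD, hc0, fun q => ?_⟩
  have h1 := hc 0 le_rfl q
  rw [pow_zero, mul_one] at h1
  have hmz : (0 : ℤ) ≤ m := by positivity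
  constructor
  · intro hq
    by_cases hqS : q ∈ S
    · rw [if_pos hqS] at h1
      simp only [r, if_pos hq] at h1
      linarith
    · rw [if_neg hqS] at h1
      linarith
  · intro hq
    by_cases hqS : q ∈ S
    · rw [if_pos hqS] at h1
      obtain ⟨a1, a2, a3⟩ := hν q hqS hq
      refine ⟨ν q, a1, a2, a3, ?_⟩
      have h3 : (0 : ℤ) ≤ ν q := by positivity
      have h4 := mul_le_mul_of_nonneg_left h1 h3
      rw [hr q hqS hq] at h4
      exact h4
    · rw [if_neg hqS] at h1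
      exact ⟨1, le_rfl, hN, one_le_ram q, by push_cast; linarith⟩

end

section

variable {k : Type*} [Field k] [CharZero k] [IsAlgClosed k]
  {E0 E : Type*} [Field E0] [Field E] [Algebra k E0] [Algebra k E] [Algebra E0 E]
  [IsScalarTower k E0 E] [IsFF k E0] [IsFF k E] [FiniteDimensional E0 E]

/-- One boundary point on the quotient line: two further ramified points. -/
theorem two_ramified {H : Type*} [Group H] [Finite H] (ρ : H →* (E ≃ₐ[k] E))
    (hfix : ∀ (h : H) (z : E0), ρ h (algebraMap E0 E z) = algebraMap E0 E z)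
    (hinv : ∀ z : E, (∀ h, ρ h z = z) → ∃ z0, algebraMap E0 E z0 = z)
    (B0 : Place k E0 → Prop) (hlog : HasLog E B0) {x : E0} (hx : k⟮x⟯ = ⊤) (q0 : Place k E0)
    (hq0 : ∀ q, B0 q → q = q0) : ∃ q1 q2 : Place k E0, q1 ≠ q2 ∧ q1 ≠ q0 ∧ q2 ≠ q0 ∧
      (∀ (w : Place k E) (e : ℕ), Over w q1 e → 2 ≤ e) ∧
      (∀ (w : Place k E) (e : ℕ), Over w q2 e → 2 ≤ e) := by
  classical
  obtain ⟨c, hc0, hc⟩ := exists_norm_log ρ hfix hinv B0 hlog (der_ne (k := k) (K := E0))
  set M := Nat.card H with hM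
  have hMpos : 0 < M := Nat.card_pos
  have hex : ∀ q : Place k E0, ∃ e, ∃ w : Place k E, Over w q e := fun q => exists_place_over q
  let r : Place k E0 → ℕ := fun q => Nat.find (hex q)
  have hr1 : ∀ q, ∃ w : Place k E, Over w q (r q) := fun q => Nat.find_spec (hex q)
  have hr2 : ∀ (q : Place k E0) (w : Place k E) (e : ℕ), Over w q e → r q ≤ e :=
    fun q w e h => Nat.find_min' (hex q) ⟨w, h⟩
  have hrpos : ∀ q, 1 ≤ r q := fun q => by
    obtain ⟨w, hw⟩ := hr1 q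
    exact hw.1
  have hineq : ∀ q, q ≠ q0 →
      (M : ℚ) * (vo q (der k E0)) - M * (1 - 1 / (r q : ℚ)) ≤ q.ord c := by
    intro q hq
    obtain ⟨w, hw⟩ := hr1 q
    have h1 := (hc q w (r q) hw).1 (fun h => hq (hq0 q h))
    have h2 : (M : ℚ) ≤ r q * (q.ord c + M * (1 - vo q (der k E0))) := by exact_mod_cast h1
    have h3 : (0 : ℚ) < r q := by exact_mod_cast hrpos q
    have h4 : (M : ℚ) / r q ≤ q.ord c + M * (1 - vo q (der k E0)) := by
      rw [div_le_iff₀ h3]; linarith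
    have h5 : (M : ℚ) * (1 - 1 / (r q : ℚ)) = M - M / r q := by field_simp
    rw [h5]
    linarith
  have hineq0 : (M : ℚ) * (vo q0 (der k E0)) - M ≤ q0.ord c := by
    obtain ⟨w, hw⟩ := hr1 q0
    by_cases hB : B0 q0
    · have h1 := (hc q0 w (r q0) hw).2 hB
      have h2 : (0 : ℚ) ≤ q0.ord c + M * (1 - vo q0 (der k E0)) := by exact_mod_cast h1
      linarith
    · have h1 := (hc q0 w (r q0) hw).1 hB
      have h2 : (M : ℚ) ≤ r q0 * (q0.ord c + M * (1 - vo q0 (der k E0))) := by exact_mod_cast h1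
      have h3 : (0 : ℚ) < r q0 := by exact_mod_cast hrpos q0
      have h4 : (0 : ℚ) ≤ r q0 * (q0.ord c + M * (1 - vo q0 (der k E0))) :=
        le_trans (by positivity) h2
      have h5 := nonneg_of_mul_nonneg_right h4 h3
      linarith
  set T : Finset (Place k E0) := insert q0 ((finite_support (k := k) c).toFinset ∪
    (vo_finite (der_ne (k := k) (K := E0))).toFinset) with hT
  have hs1 : ∑ q ∈ T, q.ord c = 0 := sum_ord_finset c T fun q hq =>
    Finset.mem_insert_of_mem (Finset.mem_union_left _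
      ((finite_support (k := k) c).mem_toFinset.2 hq))
  have hs2 : ∑ q ∈ T, vo q (der k E0) = 2 := by
    rw [canDeg_finset (der_ne (k := k) (K := E0)) T fun q hq =>
      Finset.mem_insert_of_mem (Finset.mem_union_right _
        ((vo_finite (der_ne (k := k) (K := E0))).mem_toFinset.2 hq)), canDeg_rational hx]
    rfl
  have hq0T : q0 ∈ T := Finset.mem_insert_self _ _
  rw [← Finset.add_sum_erase T _ hq0T] at hs1 hs2
  have hs3 : (1 : ℚ) ≤ ∑ q ∈ T.erase q0, (1 - 1 / (r q : ℚ)) := by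
    have h1 := Finset.sum_le_sum fun q (hq : q ∈ T.erase q0) =>
      hineq q (Finset.ne_of_mem_erase hq)
    rw [Finset.sum_sub_distrib, ← Finset.mul_sum, ← Finset.mul_sum] at h1
    have h2 : (q0.ord c : ℚ) + ∑ q ∈ T.erase q0, (q.ord c : ℚ) = 0 := by exact_mod_cast hs1
    have h3 : (vo q0 (der k E0) : ℚ) + ∑ q ∈ T.erase q0, (vo q (der k E0) : ℚ) = 2 := by
      exact_mod_cast hs2
    have h4 : (0 : ℚ) < M := by exact_mod_cast hMpos
    by_contra hcon
    push Not at hcon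
    nlinarith
  have hs4 : (1 : ℚ) ≤ ∑ q ∈ (T.erase q0).filter (fun q => 2 ≤ r q), (1 - 1 / (r q : ℚ)) := by
    rw [Finset.sum_filter_of_ne]
    · exact hs3
    · intro q _ hne
      by_contra hcon
      apply hne
      have h1 : r q = 1 := by
        have := hrpos q
        omega
      rw [h1]; norm_num
  set S := (T.erase q0).filter (fun q => 2 ≤ r q) with hS
  have hlt : ∀ q ∈ S, 1 - 1 / (r q : ℚ) < 1 := by
    intro q _
    have h2 : (0 : ℚ) < r q := by exact_mod_cast hrpos q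
    have : 0 < 1 / (r q : ℚ) := by positivity
    linarith
  have hcard : 1 < S.card := by
    have hne : S.Nonempty := by
      rw [Finset.nonempty_iff_ne_empty]
      intro h
      rw [h, Finset.sum_empty] at hs4
      norm_num at hs4
    have h1 := Finset.sum_lt_sum_of_nonempty hne hlt
    rw [Finset.sum_const, nsmul_eq_mul, mul_one] at h1
    have h2 : (1 : ℚ) < S.card := lt_of_le_of_lt hs4 h1
    exact_mod_cast h2
  obtain ⟨q1, hq1, q2, hq2, hne⟩ := Finset.one_lt_card.1 hcard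
  have a1 := Finset.mem_filter.1 hq1
  have a2 := Finset.mem_filter.1 hq2
  exact ⟨q1, q2, hne, Finset.ne_of_mem_erase a1.1, Finset.ne_of_mem_erase a2.1,
    fun w e h => a1.2.trans (hr2 q1 w e h), fun w e h => a2.2.trans (hr2 q2 w e h)⟩

open scoped Classical in
/-- Existence of a good form on the quotient curve. -/
theorem exists_good {H : Type*} [Group H] [Finite H] (ρ : H →* (E ≃ₐ[k] E))
    (hfix : ∀ (h : H) (z : E0), ρ h (algebraMap E0 E z) = algebraMap E0 E z)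
    (hinv : ∀ z : E, (∀ h, ρ h z = z) → ∃ z0, algebraMap E0 E z0 = z)
    (B0 : Place k E0 → Prop) (hlog : HasLog E B0) (hemp : (∀ q, ¬ B0 q) → ¬ ∃ t : E, k⟮t⟯ = ⊤)
    (N : ℕ)
    (hN : 6 ≤ N ∨ (2 ≤ N ∧ ∃ q, B0 q) ∨ (1 ≤ N ∧ ∃ q q', q ≠ q' ∧ B0 q ∧ B0 q') ∨
      (1 ≤ N ∧ ¬ ∃ t : E0, k⟮t⟯ = ⊤) ∨
      ∃ (S : Finset (Place k E0)) (ν : Place k E0 → ℕ),
        1 ≤ N ∧ (∀ q ∈ S, ¬ B0 q → 1 ≤ ν q ∧ ν q ≤ N ∧
          ∀ (w : Place k E) (e : ℕ), Over w q e → ν q ≤ e) ∧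
        (2 : ℚ) ≤ ∑ q ∈ S, (if B0 q then 1 else 1 - 1 / (ν q : ℚ))) :
    ∃ (m : ℕ) (D0 : Derivation k E0 E0) (c : E0), 1 ≤ m ∧ D0 ≠ 0 ∧ c ≠ 0 ∧ Good E B0 N m D0 c := by
  have hN1 : 1 ≤ N := by
    rcases hN with h | ⟨h, -⟩ | ⟨h, -⟩ | ⟨h, -⟩ | ⟨S, ν, h, -⟩ <;> omega
  by_cases hrat0 : ∃ t : E0, k⟮t⟯ = ⊤
  swap
  · obtain ⟨c, hc, h⟩ := good_of_nonrational (E := E) B0 hN1 hrat0
    exact ⟨1, _, c, le_rfl, der_ne, hc, h⟩
  obtain ⟨x, hx⟩ := hrat0
  have two : ∀ q q', q ≠ q' → B0 q → B0 q' → ∃ (m : ℕ) (D0 : Derivation k E0 E0) (c : E0),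
      1 ≤ m ∧ D0 ≠ 0 ∧ c ≠ 0 ∧ Good E B0 N m D0 c := by
    intro q q' hne hq hq'
    refine good_of_signature B0 hN1 hx {q, q'} (fun _ => 1) ?_ ?_
    · intro p hp hpB
      rw [Finset.mem_insert, Finset.mem_singleton] at hp
      rcases hp with rfl | rfl
      · exact absurd hq hpB
      · exact absurd hq' hpB
    · rw [Finset.sum_pair hne, if_pos hq, if_pos hq']
      norm_num
  have one : 2 ≤ N → (∃ q, B0 q) → ∃ (m : ℕ) (D0 : Derivation k E0 E0) (c : E0),
      1 ≤ m ∧ D0 ≠ 0 ∧ c ≠ 0 ∧ Good E B0 N m D0 c := by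
    rintro hN2 ⟨q0, hq0⟩
    by_cases h : ∃ q', q0 ≠ q' ∧ B0 q'
    · obtain ⟨q', h1, h2⟩ := h
      exact two q0 q' h1 hq0 h2
    push Not at h
    have hall : ∀ q, B0 q → q = q0 := by
      intro q hq
      by_contra hcon
      exact h q (Ne.symm hcon) hq
    obtain ⟨q1, q2, h12, h10, h20, hr1, hr2⟩ := two_ramified ρ hfix hinv B0 hlog hx q0 hall
    have hn1 : ¬ B0 q1 := fun h => h10 (hall q1 h)
    have hn2 : ¬ B0 q2 := fun h => h20 (hall q2 h)
    refine good_of_signature B0 hN1 hx {q0, q1, q2} (fun _ => 2) ?_ ?_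
    · intro p hp hpB
      rw [Finset.mem_insert, Finset.mem_insert, Finset.mem_singleton] at hp
      rcases hp with rfl | rfl | rfl
      · exact absurd hq0 hpB
      · exact ⟨by norm_num, hN2, hr1⟩
      · exact ⟨by norm_num, hN2, hr2⟩
    · rw [Finset.sum_insert (by simp [h10.symm, h20.symm]), Finset.sum_pair h12, if_pos hq0,
        if_neg hn1, if_neg hn2]
      norm_num
  rcases hN with hN6 | ⟨hN2, hq⟩ | ⟨-, q, q', h1, h2, h3⟩ | ⟨-, h⟩ | ⟨S, ν, -, h1, h2⟩
  · by_cases hB : ∃ q, B0 q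
    · exact one (by omega) hB
    · push Not at hB
      obtain ⟨m, D0, c, h1, h2, h3, h4⟩ := curve_data ρ hfix hinv (hemp hB) N (Or.inl hN6)
      exact ⟨m, D0, c, h1, h2, h3, fun q => ⟨fun h => absurd h (hB q), fun _ => h4 q⟩⟩
  · exact one hN2 hq
  · exact two q q' h1 h2 h3
  · exact absurd ⟨x, hx⟩ h
  · exact good_of_signature B0 hN1 hx S ν h1 h2

end

end Pool.Agent.W619.PL
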