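import Pool.Agent.W619.PL.LCurve
import Pool.Agent.W619.PQ.Main

/-! Logarithmic pluricanonical forms on quotients of products of curves. -/

set_option autoImplicit false
set_option linter.overlappingInstances false
set_option linter.unusedSectionVars false

open Polynomial FF IntermediateField

namespace Pool.Agent.W619.PL

open Pool.Agent.W603.LV Pool.Agent.W619.PQ

section

variable {k K : Type*} [Field k] [Field K] [Algebra k K]

/-- Logarithmic derivations along the place: `D f / f` is regular for all `f`. -/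
def LogPres (v : Place k K) (D : Derivation k K K) : Prop := ∀ f, v.Reg (D f / f)

variable [CharZero k] [IsAlgClosed k] {n : ℕ} {E : Fin n → Type*} [∀ i, Field (E i)]
  [∀ i, Algebra k (E i)] [∀ i, Algebra (E i) K] [∀ i, IsScalarTower k (E i) K] [∀ i, IsFF k (E i)]

/-- Logarithmic regularity of the exterior product at a place. -/
theorem extForm_logregular (m : ℕ) (D0 : ∀ i, Derivation k (E i) (E i)) (hD0 : ∀ i, D0 i ≠ 0)
    (x c : ∀ i, E i) (hx : ∀ i, Transcendental k (x i)) (hc : ∀ i, c i ≠ 0) (v : Place k K)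
    (hs : ∀ i, (∀ f : E i, v.ord (algebraMap (E i) K f) = 0) ∨
      ∃ (p : Place k (E i)) (e : ℕ), Over v p e ∧ 0 ≤ p.ord (c i) + m * (1 - vo p (D0 i)))
    (D : Fin n → Derivation k K K) (hD : ∀ j, LogPres v (D j)) :
    v.Reg (extForm m D0 x c D) := by
  classical
  have hz : ∀ i, ∃ z : E i, Transcendental k z ∧
      0 ≤ v.ord (algebraMap (E i) K (c i * (z / D0 i z) ^ m)) := by
    intro i
    rcases hs i with h1 | ⟨p, e, he, h⟩
    · exact ⟨x i, hx i, (h1 _).ge⟩
    · obtain ⟨t, ht0, ht⟩ := p.surj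
      have htt : Transcendental k t := p.transcendental_of_ord_ne (by omega)
      refine ⟨t, htt, ?_⟩
      have hDt := der_ne_zero (hD0 i) htt
      rw [he.2, p.ord_mul (hc i) (pow_ne_zero _ (div_ne_zero ht0 hDt)), p.ord_pow,
        p.ord_div ht0 hDt, ht, vo_eq p ht (hD0 i)]
      exact mul_nonneg (by positivity) h
  choose z hz1 hz2 using hz
  rw [extForm_eq m D0 hD0 x c hx z hz1 D]
  have hz0 : ∀ i, z i ≠ 0 := fun i h => hz1 i (by rw [h]; exact isAlgebraic_zero)
  have hne : ∀ i, algebraMap (E i) K (c i * (z i / D0 i (z i)) ^ m) ≠ 0 := by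
    intro i
    rw [Ne, map_eq_zero]
    exact mul_ne_zero (hc i) (pow_ne_zero _ (div_ne_zero (hz0 i) (der_ne_zero (hD0 i) (hz1 i))))
  have h1 : Ge v 0 (∏ i, algebraMap (E i) K (c i * (z i / D0 i (z i)) ^ m)) := by
    right
    rw [ord_prod _ _ _ fun i _ => hne i]
    exact Finset.sum_nonneg fun i _ => hz2 i
  have h2 : Ge v 0 (Matrix.det (Matrix.of fun j i => D j (algebraMap (E i) K (z i)) /
      algebraMap (E i) K (z i))) := ge_det v _ fun j i => hD j _
  have h3 := h1.mul (h2.pow m)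
  simp only [mul_zero, add_zero] at h3
  exact h3

end

section

variable {k L : Type*} [Field k] [CharZero k] [IsAlgClosed k] [Field L] [Algebra k L]
  {G : Subgroup (L ≃ₐ[k] L)} [Finite G] {n : ℕ} {E0 E : Fin n → Type*}
  [∀ i, Field (E0 i)] [∀ i, Field (E i)] [∀ i, Algebra k (E0 i)] [∀ i, Algebra k (E i)]
  [∀ i, Algebra (E0 i) (E i)] [∀ i, Algebra (E i) L] [∀ i, Algebra (E0 i) (fixedField G)]
  [∀ i, Algebra (E0 i) L]
  [∀ i, IsScalarTower k (E0 i) (E i)] [∀ i, IsScalarTower k (E i) L]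
  [∀ i, IsScalarTower k (E0 i) L]
  [∀ i, IsScalarTower k (E0 i) (fixedField G)]
  [∀ i, IsScalarTower (E0 i) (E i) L] [∀ i, IsScalarTower (E0 i) (fixedField G) L]
  [∀ i, IsFF k (E0 i)] [∀ i, IsFF k (E i)] [∀ i, FiniteDimensional (E0 i) (E i)]

/-- The place is a boundary place: it lies over a boundary point of a quotient curve. -/
def Bdry (B0 : ∀ i, Place k (E0 i) → Prop) (v : Place k (fixedField G)) : Prop :=
  ∃ (i : Fin n) (p : Place k (E0 i)) (e : ℕ), Over v p e ∧ B0 i p

open scoped Classical in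
/-- The exterior product of good forms is regular off the boundary. -/
theorem regular_of_good (ρ : ∀ i, G →* (E i ≃ₐ[k] E i))
    (hcomp : ∀ i (g : G) z, algebraMap (E i) L (ρ i g z) = (g : L ≃ₐ[k] L) (algebraMap (E i) L z))
    (B0 : ∀ i, Place k (E0 i) → Prop) (N : Fin n → ℕ)
    (hage : ∀ g : G, g ≠ 1 → (1 : ℚ) ≤ ∑ i with ρ i g ≠ 1,
      1 / ((min (orderOf (ρ i g)) (N i) : ℕ) : ℚ))
    {M : ℕ} {D0 : ∀ i, Derivation k (E0 i) (E0 i)} {c : ∀ i, E0 i} (hD0 : ∀ i, D0 i ≠ 0)
    (hc : ∀ i, c i ≠ 0) (hgood : ∀ i, Good (E i) (B0 i) (N i) M (D0 i) (c i)) (x : ∀ i, E0 i)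
    (hx : ∀ i, Transcendental k (x i)) (v : Place k (fixedField G))
    (hv : ¬ Bdry B0 v)
    (D : Fin n → Derivation k (fixedField G) (fixedField G)) (hD : ∀ j, Pres v (D j)) :
    v.Reg (extForm M D0 x c D) := by
  obtain ⟨w, e, I, hwv, hIe, hI⟩ := exists_inertia G v
  -- the local data at each factor
  have hex : ∀ i, ∃ s : ℚ, 0 ≤ s ∧
      (((∀ f : E0 i, v.ord (algebraMap (E0 i) (fixedField G) f) = 0) ∧ s = 0) ∨
        ∃ (p : Place k (E0 i)) (α ν r b : ℕ) (q : Place k (E i)), Over v p α ∧ Over w q b ∧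
          Over q p r ∧ e * α = b * r ∧ 1 ≤ ν ∧ ν ≤ N i ∧ ν ≤ r ∧ s = α / ν ∧
          (M : ℤ) ≤ ν * (p.ord (c i) + M * (1 - vo p (D0 i)))) := by
    intro i
    by_cases htriv : ∀ f : E0 i, v.ord (algebraMap (E0 i) (fixedField G) f) = 0
    · exact ⟨0, le_rfl, Or.inl ⟨htriv, rfl⟩⟩
    · push Not at htriv
      obtain ⟨α, p, hp⟩ := exists_over (K := E0 i) v htriv
      obtain ⟨q, b, r, h1, h2, h3⟩ := exists_factor_place (E := E i) hwv hp
      have hnB : ¬ B0 i p := fun h => hv ⟨i, p, α, hp, h⟩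
      obtain ⟨ν, h4, h5, h6, h7⟩ := (hgood i p).2 hnB
      exact ⟨α / ν, by positivity, Or.inr ⟨p, α, ν, r, b, q, hp, h1, h2, h3, h4, h5, h6 q r h2,
        rfl, h7⟩⟩
  choose s hs0 hs using hex
  refine extForm_regular M D0 hD0 x c hx hc v s ?_ ?_ D hD
  · intro i
    rcases hs i with h | ⟨p, α, ν, r, b, q, h1, h2, h3, h4, h5, h6, h7, h8, h9⟩
    · exact Or.inl h
    · refine Or.inr ⟨p, α, h1, ?_⟩
      rw [h8]
      have hν : (0 : ℚ) < ν := by exact_mod_cast h5
      have h10 : (M : ℚ) ≤ ν * (p.ord (c i) + M * (1 - vo p (D0 i))) := by exact_mod_cast h9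
      rw [div_mul_eq_mul_div, div_le_iff₀ hν]
      have h11 : (0 : ℚ) ≤ α := by positivity
      calc (α : ℚ) * M ≤ α * (ν * (p.ord (c i) + M * (1 - vo p (D0 i)))) :=
            mul_le_mul_of_nonneg_left h10 h11
        _ = _ := by ring
  · by_cases hall : ∀ i, ∀ f : E0 i, v.ord (algebraMap (E0 i) (fixedField G) f) = 0
    · exact Or.inl hall
    right
    have hepos : 0 < e := hwv.1
    rcases Nat.lt_or_ge 1 e with he | he
    · -- ramified
      obtain ⟨g, hgI, hgord, hgen⟩ := exists_generator w I hI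
      rw [hIe] at hgord hgen
      have hg1 : g ≠ 1 := by
        rintro rfl
        rw [Subgroup.coe_one, orderOf_one] at hgord
        omega
      refine (hage g hg1).trans ?_
      refine le_trans ?_ (Finset.sum_le_sum_of_subset_of_nonneg
        (s := Finset.univ.filter fun i => ρ i g ≠ 1) (Finset.subset_univ _) fun i _ _ => hs0 i)
      refine Finset.sum_le_sum fun i hi => ?_
      have hmoved : ρ i g ≠ 1 := (Finset.mem_filter.1 hi).2
      obtain ⟨f, hf⟩ := nontrivial_of_moved (E0 := E0 i) hwv (g : L ≃ₐ[k] L) (ρ i g)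
        (hcomp i g) (hI g hgI) hmoved
      rcases hs i with h | ⟨p, α, ν, r, b, q, h1, h2, h3, h4, h5, h6, h7, h8, h9⟩
      · exact absurd (h.1 f) hf
      · have hfo : IsOfFinOrder (ρ i g) := (ρ i).isOfFinOrder (isOfFinOrder_of_finite g)
        have hb := order_bound h2 h3 hepos h4 (g : L ≃ₐ[k] L) (ρ i g) (hcomp i g) (hI g hgI)
          hgen hfo
        rw [h8]
        have hν : (0 : ℚ) < ν := by exact_mod_cast h5
        have hα : 1 ≤ α := h1.1
        have hpos : 0 < min (orderOf (ρ i g)) (N i) :=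
          lt_min hfo.orderOf_pos (by omega)
        have hposq : (0 : ℚ) < ((min (orderOf (ρ i g)) (N i) : ℕ) : ℚ) := by exact_mod_cast hpos
        rw [div_le_div_iff₀ hposq hν, one_mul]
        have h10 : ν ≤ α * min (orderOf (ρ i g)) (N i) := by
          rcases le_total (orderOf (ρ i g)) (N i) with h | h
          · rw [min_eq_left h, mul_comm]
            exact h7.trans hb
          · rw [min_eq_right h]
            nlinarith
        exact_mod_cast h10
    · -- unramified
      have he1 : e = 1 := by omega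
      push Not at hall
      obtain ⟨i, f, hf⟩ := hall
      refine le_trans ?_ (Finset.single_le_sum (fun i _ => hs0 i) (Finset.mem_univ i))
      rcases hs i with h | ⟨p, α, ν, r, b, q, h1, h2, h3, h4, h5, h6, h7, h8, h9⟩
      · exact absurd (h.1 f) hf
      · rw [h8]
        have hν : (0 : ℚ) < ν := by exact_mod_cast h5
        rw [le_div_iff₀ hν, one_mul]
        have h10 : ν ≤ α := by
          rw [he1, one_mul] at h4
          have := h2.1
          nlinarith
        exact_mod_cast h10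

/-- The exterior product of good forms is logarithmic at every place. -/
theorem logregular_of_good (B0 : ∀ i, Place k (E0 i) → Prop) (N : Fin n → ℕ)
    {M : ℕ} {D0 : ∀ i, Derivation k (E0 i) (E0 i)} {c : ∀ i, E0 i} (hD0 : ∀ i, D0 i ≠ 0)
    (hc : ∀ i, c i ≠ 0) (hgood : ∀ i, Good (E i) (B0 i) (N i) M (D0 i) (c i)) (x : ∀ i, E0 i)
    (hx : ∀ i, Transcendental k (x i)) (v : Place k (fixedField G))
    (D : Fin n → Derivation k (fixedField G) (fixedField G)) (hD : ∀ j, LogPres v (D j)) :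
    v.Reg (extForm M D0 x c D) := by
  refine extForm_logregular M D0 hD0 x c hx hc v (fun i => ?_) D hD
  by_cases htriv : ∀ f : E0 i, v.ord (algebraMap (E0 i) (fixedField G) f) = 0
  · exact Or.inl htriv
  · push Not at htriv
    obtain ⟨α, p, hp⟩ := exists_over (K := E0 i) v htriv
    exact Or.inr ⟨p, α, hp, (hgood i).nonneg p⟩

end

end Pool.Agent.W619.PL
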