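import Pool.Agent.W619.PL.LAbs
import Pool.Agent.W619.PL.LDefs

/-! Quotients of products of open curves of logarithmic Kodaira dimension `-∞` are
`A¹`-uniruled. -/

set_option autoImplicit false
set_option linter.overlappingInstances false
set_option linter.unusedSectionVars false

universe u v

open FF IntermediateField Pool.Agent.W619.PQ

namespace Pool.Agent.W619.PL

variable {k : Type v} {L : Type u} [Field k] [Field L] [Algebra k L]

theorem ordOn_eq {G : Subgroup (L ≃ₐ[k] L)} {F : IntermediateField k L}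
    (hst : ∀ g ∈ G, ∀ z ∈ F, g z ∈ F) [Finite G] (g : G) :
    orderOf (rho G F hst g) = ordOn F (g : L ≃ₐ[k] L) := by
  have hfo : IsOfFinOrder (rho G F hst g) :=
    (rho G F hst).isOfFinOrder (isOfFinOrder_of_finite g)
  have key : ∀ d : ℕ, (∀ z ∈ F, ((g : L ≃ₐ[k] L) ^ d) z = z) ↔ rho G F hst g ^ d = 1 := by
    intro d
    rw [← map_pow]
    constructor
    · intro h
      apply AlgEquiv.ext
      intro z
      apply Subtype.ext
      have := h z z.2
      rw [rho_coe]
      exact this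
    · intro h z hz
      have h1 := congrArg (fun φ : F ≃ₐ[k] F => ((φ ⟨z, hz⟩ : F) : L)) h
      rw [rho_coe] at h1
      exact h1
  apply le_antisymm
  · apply le_csInf
    · exact ⟨orderOf (rho G F hst g), hfo.orderOf_pos, (key _).2 (pow_orderOf_eq_one _)⟩
    · rintro d ⟨hd, hd2⟩
      exact orderOf_le_of_pow_eq_one hd ((key d).1 hd2)
  · exact Nat.sInf_le ⟨hfo.orderOf_pos, (key _).2 (pow_orderOf_eq_one _)⟩

open scoped Classical in
theorem age_of_cond {G : Subgroup (L ≃ₐ[k] L)} {n : ℕ} [Finite G]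
    (F : Fin n → IntermediateField k L)
    (hst : ∀ i, ∀ g ∈ G, ∀ z ∈ F i, g z ∈ F i) (N : Fin n → ℕ) (h : AgeCond G F N) (g : G)
    (hg : g ≠ 1) : (1 : ℚ) ≤ ∑ i with rho G (F i) (hst i) g ≠ 1,
      1 / ((min (orderOf (rho G (F i) (hst i) g)) (N i) : ℕ) : ℚ) := by
  have h1 := h (g : L ≃ₐ[k] L) g.2 (fun h' => hg (Subtype.ext h'))
  refine h1.trans (le_of_eq ?_)
  rw [Finset.sum_filter]
  refine Finset.sum_congr rfl fun i _ => ?_
  unfold wt
  rw [← ordOn_eq (hst i) g]
  by_cases h2 : rho G (F i) (hst i) g = 1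
  · rw [if_pos (by rw [h2, orderOf_one]), if_neg (not_not.2 h2)]
  · rw [if_neg (by rwa [orderOf_eq_one_iff]), if_pos h2]

/-- The comparison of the two descriptions of the function field of the quotient curve. -/
noncomputable def toQuo (G : Subgroup (L ≃ₐ[k] L)) (F : IntermediateField k L)
    (hst : ∀ g ∈ G, ∀ z ∈ F, g z ∈ F) : ↥(F ⊓ fixedField G) →+* Quo G F hst :=
  ((inclusion (inf_le_left : F ⊓ fixedField G ≤ F)) : ↥(F ⊓ fixedField G) →+* F).codRestrict
    (Quo G F hst) (fun z => by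
      rintro ⟨_, g, rfl⟩
      apply Subtype.ext
      exact z.2.2 g)

theorem toQuo_bijective (G : Subgroup (L ≃ₐ[k] L)) (F : IntermediateField k L)
    (hst : ∀ g ∈ G, ∀ z ∈ F, g z ∈ F) : Function.Bijective (toQuo G F hst) := by
  refine ⟨(toQuo G F hst).injective, fun y => ?_⟩
  refine ⟨⟨((y : F) : L), (y : F).2, fun g => ?_⟩, rfl⟩
  exact congrArg (Subtype.val : F → L) (quo_fixed y g)

/-- The factor is finite over the function field of its quotient. -/
theorem inf_finite (G : Subgroup (L ≃ₐ[k] L)) (F : IntermediateField k L)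
    (hst : ∀ g ∈ G, ∀ z ∈ F, g z ∈ F) [Finite G] [Algebra ↥(F ⊓ fixedField G) F]
    (h : ∀ z : ↥(F ⊓ fixedField G), algebraMap ↥(F ⊓ fixedField G) F z =
      inclusion (inf_le_left : F ⊓ fixedField G ≤ F) z) :
    Module.Finite ↥(F ⊓ fixedField G) F := by
  have hfr : Finite (rho G F hst).range :=
    Finite.of_surjective _ (rho G F hst).rangeRestrict_surjective
  have f1 : FiniteDimensional (Quo G F hst) F := fixed_finite (rho G F hst).range
  let e : ↥(F ⊓ fixedField G) ≃+* Quo G F hst := RingEquiv.ofBijective _ (toQuo_bijective G F hst)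
  refine Module.Finite.of_equiv_equiv (A₁ := Quo G F hst) (B₁ := F) e.symm (RingEquiv.refl F) ?_
  ext y
  obtain ⟨z, rfl⟩ := e.surjective y
  simp only [RingHom.comp_apply, RingEquiv.coe_toRingHom, RingEquiv.symm_apply_apply, h]
  rfl

theorem log_main [CharZero k] [IsAlgClosed k] (n : ℕ) (hn : Algebra.trdeg k L = n)
    (F : Fin n → IntermediateField k L) (hF : ∀ i, IsFF k (F i)) (hsup : ⨆ i, F i = ⊤)
    (G : Subgroup (L ≃ₐ[k] L)) [Finite G] (hst : ∀ i, ∀ g ∈ G, ∀ z ∈ F i, g z ∈ F i)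
    (B : ∀ i, Set (Place k ↥(F i ⊓ fixedField G))) (N : Fin n → ℕ)
    (hN : ∀ i, Admissible inf_le_left (B i) (N i)) (hage : AgeCond G F N)
    (hκ : LogKodairaNeg k (fixedField G) n (QBd F G B)) :
    IsA1Uniruled k (fixedField G) n (QBd F G B) := by
  let E0 : Fin n → Type u := fun i => ↥(F i ⊓ fixedField G)
  let _ : ∀ i, Field (E0 i) := fun i => inferInstanceAs (Field ↥(F i ⊓ fixedField G))
  let _ : ∀ i, Algebra k (E0 i) := fun i => inferInstanceAs (Algebra k ↥(F i ⊓ fixedField G))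
  let _ : ∀ i, Algebra (E0 i) (F i) := fun i =>
    (inclusion (inf_le_left : F i ⊓ fixedField G ≤ F i)).toRingHom.toAlgebra
  let _ : ∀ i, Algebra (E0 i) (fixedField G) := fun i =>
    (inclusion (inf_le_right : F i ⊓ fixedField G ≤ fixedField G)).toRingHom.toAlgebra
  let _ : ∀ i, Algebra (E0 i) L := fun i => inferInstanceAs (Algebra ↥(F i ⊓ fixedField G) L)
  have t1 : ∀ i, IsScalarTower k (E0 i) (F i) := fun i =>
    IsScalarTower.of_algebraMap_eq fun c => rfl
  have t2 : ∀ i, IsScalarTower k (E0 i) L := fun i =>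
    IsScalarTower.of_algebraMap_eq fun c => rfl
  have t3 : ∀ i, IsScalarTower k (E0 i) (fixedField G) := fun i =>
    IsScalarTower.of_algebraMap_eq fun c => rfl
  have t4 : ∀ i, IsScalarTower (E0 i) (F i) L := fun i =>
    IsScalarTower.of_algebraMap_eq fun c => rfl
  have t5 : ∀ i, IsScalarTower (E0 i) (fixedField G) L := fun i =>
    IsScalarTower.of_algebraMap_eq fun c => rfl
  have f1 : ∀ i, FiniteDimensional (E0 i) (F i) := fun i => inf_finite G (F i) (hst i) fun z => rfl
  have f2 : ∀ i, IsFF k (E0 i) := fun i => isFF_down (E := F i)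
  have hBd : QBd F G B = Bdry (E0 := E0) (fun i q => q ∈ B i) := by
    funext v
    apply propext
    constructor
    · rintro ⟨i, p, hp, e, h⟩
      exact ⟨i, p, e, h, hp⟩
    · rintro ⟨i, p, e, h, hp⟩
      exact ⟨i, p, hp, e, h⟩
  rw [hBd] at hκ ⊢
  refine log_abstract n hn F hsup G (E0 := E0) (fun i => rho G (F i) (hst i))
    (fun i g z => rfl) (fun i g z => ?_) (fun i z hz => ?_) (fun i q => q ∈ B i) N (fun i => ?_)
    (age_of_cond F hst N hage) hκ
  · apply Subtype.ext
    exact z.2.2 g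
  · refine ⟨⟨(z : L), z.2, fun g => ?_⟩, rfl⟩
    exact congrArg (Subtype.val : F i → L) (hz g)
  · obtain ⟨h1, h | h | h | h | ⟨S, ν, h2, h3⟩⟩ := hN i
    · exact Or.inl h
    · exact Or.inr (Or.inl h)
    · obtain ⟨q, hq, q', hq', hne⟩ := h
      exact Or.inr (Or.inr (Or.inl ⟨h1, q, q', hne, hq, hq'⟩))
    · exact Or.inr (Or.inr (Or.inr (Or.inl ⟨h1, h⟩)))
    · exact Or.inr (Or.inr (Or.inr (Or.inr ⟨S, ν, h1, h2, h3⟩)))

end Pool.Agent.W619.PL
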